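import Pool.Agent.helper73.TC.YDefs

/-!
# Chains of induced subcomplexes of the complex on 20 vertices

Used for `MP_a50e43_gt` (tight polyhedral embedding of complex projective 3-space). The two facts on
links (`fact0`, `fact1`) are hypotheses here.
-/

set_option autoImplicit false
open Topology

noncomputable section
namespace Pool.Agent.helper73.TC.Y8

theorem K_down : DownClosed K := by
  rintro s ⟨m, hm, h⟩ t ht
  exact ⟨m, hm, fun i hi => h i (ht hi)⟩

theorem KW_down (W : Finset (Fin 20)) : DownClosed (KW W) := by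
  rintro s ⟨h1, h2⟩ t ht
  exact ⟨K_down s h1 t ht, ht.trans h2⟩

theorem chkV : ∀ v : Fin 20, (Fl.K20.any fun m => m.testBit v.1) = true := by
  decide +kernel

theorem vert_K (v : Fin 20) : ({v} : Finset (Fin 20)) ∈ K := by
  obtain ⟨m, hm, h⟩ := List.any_eq_true.mp (chkV v)
  refine ⟨m, hm, fun i hi => ?_⟩
  rw [Finset.mem_singleton] at hi
  rw [hi]
  exact h

theorem vert_KW (W : Finset (Fin 20)) (v : Fin 20) (hv : v ∈ W) : ({v} : Finset (Fin 20)) ∈ KW W :=
  ⟨vert_K v, Finset.singleton_subset_iff.mpr hv⟩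

theorem lk_KW (W : Finset (Fin 20)) (v : Fin 20) (hv : v ∈ W) : lk (KW W) v = LK v (W.erase v) := by
  ext s
  constructor
  · rintro ⟨h1, h2, h3⟩
    refine ⟨h1, fun x hx => ?_, h2⟩
    refine Finset.mem_erase.mpr ⟨fun hxv => h1 (hxv ▸ hx), h3 (Finset.mem_insert_of_mem hx)⟩
  · rintro ⟨h1, h2, h3⟩
    refine ⟨h1, h3, Finset.insert_subset hv (h2.trans (Finset.erase_subset v W))⟩

theorem del_KW (W : Finset (Fin 20)) (v : Fin 20) : del (KW W) v = KW (W.erase v) := by
  ext s
  constructor
  · rintro ⟨⟨h1, h2⟩, h3⟩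
    exact ⟨h1, fun x hx => Finset.mem_erase.mpr ⟨fun hxv => h3 (hxv ▸ hx), h2 hx⟩⟩
  · rintro ⟨h1, h2⟩
    exact ⟨⟨h1, h2.trans (Finset.erase_subset v W)⟩, fun hv => (Finset.mem_erase.mp (h2 hv)).1 rfl⟩

theorem incl_congr (F : Type) [Field F] {C D E : Set (Finset (Fin 20))} (e : C = D) (h : C ⊆ E)
    (h' : D ⊆ E) (n : ℕ) (hI : HI F (Real.incl h) n) : HI F (Real.incl h') n := by
  subst e
  exact hI

theorem KW_mono {W W' : Finset (Fin 20)} (h : W ⊆ W') : KW W ⊆ KW W' := fun _ hs => ⟨hs.1, hs.2.trans h⟩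

/-- one step -/
theorem step (F : Type) [Field F] (W : Finset (Fin 20)) (v : Fin 20) (hv : v ∈ W)
    (h1 : Par1 F (Real (LK v (W.erase v)))) (h0 : Par0 F (Real (KW (W.erase v)))) :
    Par0 F (Real (KW W)) ∧ ∀ n, HI F (Real.incl (KW_mono (Finset.erase_subset v W))) n := by
  have h := par0_step F (KW W) v (KW_down W) (vert_KW W v hv) (by rw [lk_KW W v hv]; exact h1)
    (by rw [del_KW]; exact h0)
  exact ⟨h.1, fun n => incl_congr F (del_KW W v) _ _ n (h.2 n)⟩

theorem anti_anti (v : Fin 20) : anti (anti v) = v := by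
  revert v; decide

theorem anti_ne (v : Fin 20) : anti v ≠ v := by
  revert v; decide

theorem anti_div (v : Fin 20) : (anti v).1 / 2 = v.1 / 2 := by
  revert v; decide

theorem eq_or (v w : Fin 20) (h : w.1 / 2 = v.1 / 2) : w = v ∨ w = anti v := by
  revert v w; decide

theorem AF_mono {U V : Finset (Fin 20)} (h : U ⊆ V) (hV : AF V) : AF U :=
  fun w hw hw' => hV w (h hw) (h hw')

/-- a vertex with smallest pair index -/
theorem exists_first (U : Finset (Fin 20)) (hU : AF U) (hne : U.Nonempty) :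
    ∃ v ∈ U, ∀ w ∈ U.erase v, v.1 / 2 < w.1 / 2 := by
  obtain ⟨v, hv, hmin⟩ := Finset.exists_min_image U (fun w : Fin 20 => w.1 / 2) hne
  refine ⟨v, hv, fun w hw => ?_⟩
  obtain ⟨hwv, hwU⟩ := Finset.mem_erase.mp hw
  refine lt_of_le_of_ne (hmin w hwU) fun h => ?_
  rcases eq_or v w h.symm with h' | h'
  · exact hwv h'
  · exact hU v hv (h' ▸ hwU)

/-- one element of each pair -/
def Full (U : Finset (Fin 20)) : Prop := ∀ j < 10, ∃ w ∈ U, w.1 / 2 = j

theorem full_compl (U : Finset (Fin 20)) (h : Full U) : AF Uᶜ := by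
  intro w hw hw'
  obtain ⟨u, hu, huw⟩ := h (w.1 / 2) (by omega)
  rcases eq_or w u huw with h' | h'
  · rw [Finset.mem_compl] at hw
    exact hw (h' ▸ hu)
  · rw [Finset.mem_compl] at hw'
    exact hw' (h' ▸ hu)

/-- the next vertex of an incomplete set -/
theorem exists_next (U : Finset (Fin 20)) (hU : AF U) (h : ¬ Full U) :
    ∃ v, v ∉ U ∧ anti v ∉ U ∧ Hidx v U := by
  classical
  have hex : ∃ j, j < 10 ∧ ∀ w ∈ U, w.1 / 2 ≠ j := by
    unfold Full at h
    push Not at h
    exact h
  obtain ⟨hj, hjU⟩ := Nat.find_spec hex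
  have hmin : ∀ k < Nat.find hex, ∃ w ∈ U, w.1 / 2 = k := by
    intro k hk
    have := Nat.find_min hex hk
    push Not at this
    exact this (by omega)
  set j := Nat.find hex with hjdef
  have key : ∃ p < 2, ∀ w ∈ U, w.1 / 2 = 0 → w.1 % 2 = p := by
    by_cases h0 : ∃ u ∈ U, u.1 / 2 = 0
    · obtain ⟨u, hu, hu0⟩ := h0
      refine ⟨u.1 % 2, by omega, fun w hw hw0 => ?_⟩
      rcases eq_or u w (by omega) with h' | h'
      · rw [h']
      · exact absurd (h' ▸ hw) (hU u hu)
    · exact ⟨0, by omega, fun w hw hw0 => absurd ⟨w, hw, hw0⟩ h0⟩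
  obtain ⟨p, hp, hpU⟩ := key
  refine ⟨⟨2 * j + p, by omega⟩, fun hv => ?_, fun hv => ?_, Or.inr ⟨?_, ?_⟩⟩
  · exact hjU _ hv (by simp only; omega)
  · exact hjU _ hv (by rw [anti_div]; simp only; omega)
  · intro k hk
    simp only at hk
    exact hmin k (by omega)
  · intro w hw hw0
    rw [hpU w hw hw0]
    simp only
    omega

theorem AF_insert (U : Finset (Fin 20)) (hU : AF U) (v : Fin 20) (h : anti v ∉ U) : AF (insert v U) := by
  intro w hw hw'
  rcases Finset.mem_insert.mp hw with rfl | hw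
  · rcases Finset.mem_insert.mp hw' with h' | hw'
    · exact anti_ne w h'
    · exact h hw'
  · rcases Finset.mem_insert.mp hw' with h' | hw'
    · rw [← h', anti_anti] at h
      exact h hw
    · exact hU w hw hw'

section main
variable (F : Type) [Field F]
  (fact0 : ∀ (v : Fin 20) (U : Finset (Fin 20)), AF U → v ∉ U → anti v ∉ U → Hidx v U →
    Par1 F (Real (LK v U)))
  (fact1 : ∀ (v : Fin 20) (U : Finset (Fin 20)), AF U → v ∉ U → anti v ∉ U → Hidx v U →
    Par1 F (Real (LK v (insert v U)ᶜ)))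
include fact0 fact1

theorem par_aux (n : ℕ) : ∀ (W : Finset (Fin 20)), W.card = n → (AF W ∨ AF Wᶜ) →
    Par0 F (Real (KW W)) := by
  induction n with
  | zero =>
    intro W hW _
    rw [Finset.card_eq_zero] at hW
    subst hW
    exact (par_empty F (KW ∅) fun s hs => Finset.subset_empty.mp hs.2).1
  | succ n ih =>
    have case0 : ∀ (W : Finset (Fin 20)), W.card = n + 1 → AF W → Par0 F (Real (KW W)) := by
      intro W hc hW
      obtain ⟨v, hv, hmin⟩ := exists_first W hW (Finset.card_pos.mp (by omega))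
      have hW' := AF_mono (Finset.erase_subset v W) hW
      refine (step F W v hv (fact0 v (W.erase v) hW' (Finset.notMem_erase v W)
        (fun h => hW v hv (Finset.mem_of_mem_erase h)) (Or.inl hmin))
        (ih (W.erase v) (by rw [Finset.card_erase_of_mem hv, hc]; rfl) (Or.inl hW'))).1
    intro W hc hW
    rcases hW with hW | hW
    · exact case0 W hc hW
    · by_cases hf : Full Wᶜ
      · have := full_compl _ hf
        rw [compl_compl] at this
        exact case0 W hc this
      · obtain ⟨v, hv, hav, hidx⟩ := exists_next Wᶜ hW hf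
        have hvW : v ∈ W := by
          by_contra h
          exact hv (Finset.mem_compl.mpr h)
        have e : (insert v Wᶜ)ᶜ = W.erase v := by
          rw [Finset.compl_insert, compl_compl]
        have e' : (W.erase v)ᶜ = insert v Wᶜ := by rw [← e, compl_compl]
        have h1 := fact1 v Wᶜ hW hv hav hidx
        rw [e] at h1
        refine (step F W v hvW h1 (ih (W.erase v) (by rw [Finset.card_erase_of_mem hvW, hc]; rfl)
          (Or.inr ?_))).1
        rw [e']
        exact AF_insert _ hW v hav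

theorem par_KW' (W : Finset (Fin 20)) (hW : AF W ∨ AF Wᶜ) : Par0 F (Real (KW W)) :=
  par_aux F fact0 fact1 _ W rfl hW

omit fact0 fact1 in
theorem HI_univ (n : ℕ) (W : Finset (Fin 20)) (hW : Wᶜ.card = 0) :
    HI F (Real.incl (KW_subset W)) n := by
  rw [Finset.card_eq_zero, Finset.compl_eq_empty_iff] at hW
  subst hW
  have e : K = KW Finset.univ := by
    ext s
    exact ⟨fun h => ⟨h, Finset.subset_univ s⟩, fun h => h.1⟩
  refine incl_congr F e (le_refl K) _ n ?_
  intro z hz h
  have : Real.incl (le_refl K) = ContinuousMap.id (Real K) := by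
    ext w; rfl
  rw [this, h96_push_id] at h
  exact h

omit fact0 fact1 in
theorem HI_step (n : ℕ) (W : Finset (Fin 20)) (v : Fin 20) (hv : v ∉ W)
    (h1 : Par1 F (Real (LK v W))) (h0 : Par0 F (Real (KW W)))
    (h : HI F (Real.incl (KW_subset (insert v W))) n) : HI F (Real.incl (KW_subset W)) n := by
  have e : (insert v W).erase v = W := Finset.erase_insert hv
  have hs := (step F (insert v W) v (Finset.mem_insert_self v W) (by rw [e]; exact h1)
    (by rw [e]; exact h0)).2 n
  have hs' : HI F (Real.incl (KW_mono (Finset.subset_insert v W))) n :=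
    incl_congr F (by rw [e]) _ _ n hs
  have := HI_comp F _ _ n h hs'
  exact this

theorem HI_aux (n : ℕ) (m : ℕ) : ∀ (W : Finset (Fin 20)), Wᶜ.card = m → (AF W ∨ AF Wᶜ) →
    HI F (Real.incl (KW_subset W)) n := by
  induction m with
  | zero => intro W hW _; exact HI_univ F n W hW
  | succ m ih =>
    have hcard : ∀ (W : Finset (Fin 20)) (v : Fin 20), v ∉ W → Wᶜ.card = m + 1 →
        (insert v W)ᶜ.card = m := by
      intro W v hv hc
      rw [Finset.compl_insert, Finset.card_erase_of_mem (Finset.mem_compl.mpr hv), hc]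
      rfl
    have case1 : ∀ (W : Finset (Fin 20)), Wᶜ.card = m + 1 → AF Wᶜ →
        HI F (Real.incl (KW_subset W)) n := by
      intro W hc hW
      obtain ⟨v, hv, hmin⟩ := exists_first Wᶜ hW (Finset.card_pos.mp (by omega))
      have hvW : v ∉ W := Finset.mem_compl.mp hv
      have hW' := AF_mono (Finset.erase_subset v Wᶜ) hW
      have h1 := fact1 v (Wᶜ.erase v) hW' (Finset.notMem_erase v _)
        (fun h => hW v hv (Finset.mem_of_mem_erase h)) (Or.inl hmin)
      rw [Finset.insert_erase hv, compl_compl] at h1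
      refine HI_step F n W v hvW h1 (par_KW' F fact0 fact1 W (Or.inr hW))
        (ih (insert v W) (hcard W v hvW hc) (Or.inr ?_))
      rw [Finset.compl_insert]
      exact hW'
    intro W hc hW
    rcases hW with hW | hW
    · by_cases hf : Full W
      · exact case1 W hc (full_compl W hf)
      · obtain ⟨v, hv, hav, hidx⟩ := exists_next W hW hf
        exact HI_step F n W v hv (fact0 v W hW hv hav hidx) (par_KW' F fact0 fact1 W (Or.inl hW))
          (ih (insert v W) (hcard W v hv hc) (Or.inl (AF_insert W hW v hav)))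
    · exact case1 W hc hW

theorem HI_KW' (W : Finset (Fin 20)) (hW : AF W ∨ AF Wᶜ) (n : ℕ) :
    HI F (Real.incl (KW_subset W)) n :=
  HI_aux F fact0 fact1 n _ W rfl hW

theorem tight_K' (a : Fin 20 → ℝ) (ha : ∀ v, a (anti v) = - a v) (c : ℝ) (n : ℕ) :
    HI F (Real.incl (ind_subset K (fun x => c < a x))) n := by
  classical
  set W : Finset (Fin 20) := Finset.univ.filter fun x => c < a x with hWdef
  have e : KW W = ind K (fun x => c < a x) := by
    ext s
    refine ⟨fun h => ⟨h.1, fun x hx => ?_⟩, fun h => ⟨h.1, fun x hx => ?_⟩⟩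
    · exact (Finset.mem_filter.mp (h.2 hx)).2
    · exact Finset.mem_filter.mpr ⟨Finset.mem_univ x, h.2 x hx⟩
  refine incl_congr F e (KW_subset W) _ n (HI_KW' F fact0 fact1 W ?_ n)
  rcases le_or_gt 0 c with hc | hc
  · left
    intro w hw hw'
    have h1 := (Finset.mem_filter.mp hw).2
    have h2 := (Finset.mem_filter.mp hw').2
    rw [ha] at h2
    linarith
  · right
    intro w hw hw'
    rw [Finset.mem_compl, hWdef, Finset.mem_filter] at hw hw'
    simp only [Finset.mem_univ, true_and, not_lt] at hw hw'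
    rw [ha] at hw'
    linarith

end main

end Pool.Agent.helper73.TC.Y8
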